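import Mathlib

/-!
# MP_3933ef_co: splitting a digraph into a `k`-arc-connected flip and a `(τ - k)`-dijoin

For all `k ≥ 2` and all `τ > 2 k` the two necessary conditions are not sufficient. The digraph has
the vertices `0, ..., τ - 1` of a directed cycle in which every arc has `k - 1` parallel copies, and two
sinks; every vertex of the cycle sends one arc to each of the two sinks. Every vertex of the
cycle has total degree `2 k`, hence after the reversal of a flip at least `k τ` of the `(k + 1) τ` arcs
have their head on the cycle, so at most `τ` arcs keep their heads in the two sinks; but a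
`(τ - k)`-dijoin contains at least `2 (τ - k) > τ` of them.
-/

set_option autoImplicit false

namespace Pool.Agent.Results.MP_3933ef_co.FlipDijoinSplitting

open Finset

/-- A finite digraph with vertex set `V` and arc set `A` (parallel arcs are allowed). -/
structure DiG (V A : Type) where
  /-- the tail of an arc -/
  tail : A → V
  /-- the head of an arc -/
  head : A → V

section

variable {V A : Type} [Fintype V] [DecidableEq V] [Fintype A] [DecidableEq A]

/-- The arcs leaving `U`. -/
def DiG.dplus (D : DiG V A) (U : Finset V) : Finset A :=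
  univ.filter fun a => D.tail a ∈ U ∧ D.head a ∉ U

/-- The arcs entering `U`. -/
def DiG.dminus (D : DiG V A) (U : Finset V) : Finset A :=
  univ.filter fun a => D.tail a ∉ U ∧ D.head a ∈ U

/-- `D` is `k`-arc-connected: at least `k` arcs enter every nonempty proper subset of `V`. -/
def DiG.ArcConn (D : DiG V A) (k : ℕ) : Prop :=
  ∀ U : Finset V, U.Nonempty → U ≠ univ → k ≤ (D.dminus U).card

/-- The underlying undirected multigraph is `m`-edge-connected. -/
def DiG.EdgeConn (D : DiG V A) (m : ℕ) : Prop :=
  ∀ U : Finset V, U.Nonempty → U ≠ univ → m ≤ (D.dplus U ∪ D.dminus U).card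

/-- `C` is a dicut: the set of the arcs leaving a nonempty proper set `U` that no arc enters. -/
def DiG.IsDicut (D : DiG V A) (C : Finset A) : Prop :=
  ∃ U : Finset V, U.Nonempty ∧ U ≠ univ ∧ D.dminus U = ∅ ∧ C = D.dplus U

/-- `J` is an `m`-dijoin: it contains at least `m` arcs of every dicut. -/
def DiG.IsDijoin (D : DiG V A) (m : ℕ) (J : Finset A) : Prop :=
  ∀ C : Finset A, D.IsDicut C → m ≤ (J ∩ C).card

/-- The digraph in which the arcs in `J` are reversed. -/
def DiG.reverse (D : DiG V A) (J : Finset A) : DiG V A where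
  tail a := if a ∈ J then D.head a else D.tail a
  head a := if a ∈ J then D.tail a else D.head a

/-- `J` is a `k`-arc-connected flip: reversing its arcs gives a `k`-arc-connected digraph. -/
def DiG.IsFlip (D : DiG V A) (k : ℕ) (J : Finset A) : Prop := (D.reverse J).ArcConn k

/-- The arc set decomposes into a `k`-arc-connected flip and an `m`-dijoin. -/
def DiG.Splits (D : DiG V A) (k m : ℕ) : Prop :=
  ∃ J J' : Finset A, J ∪ J' = univ ∧ J ∩ J' = ∅ ∧ D.IsFlip k J ∧ D.IsDijoin m J'

end

/-- The example: `k - 1` parallel arcs from `i` to `i + 1` for every `i` in `ZMod n`, and one arc from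
every `i` to each of the two sinks. -/
def ex (n k : ℕ) : DiG (ZMod n ⊕ Bool) ((ZMod n × Fin (k - 1)) ⊕ (ZMod n × Bool)) where
  tail a := match a with
    | .inl x => .inl x.1
    | .inr x => .inl x.1
  head a := match a with
    | .inl x => .inl (x.1 + 1)
    | .inr x => .inr x.2

section cyc

variable {n : ℕ} [NeZero n]

theorem cyc_all (P : ZMod n → Prop) (h : ∀ i, P i → P (i + 1)) {i : ZMod n} (hi : P i) (j : ZMod n) :
    P j := by
  have h1 : ∀ m : ℕ, P (i + m) := by
    intro m
    induction m with
    | zero => simpa using hi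
    | succ m ih =>
      have := h _ ih
      rw [Nat.cast_succ, ← add_assoc]
      exact this
  have h2 := h1 (j - i).val
  rw [ZMod.natCast_zmod_val] at h2
  rwa [add_sub_cancel] at h2

theorem cyc_out (P : ZMod n → Prop) {i j : ZMod n} (hi : P i) (hj : ¬ P j) :
    ∃ a, P a ∧ ¬ P (a + 1) := by
  by_contra hcon
  push Not at hcon
  exact hj (cyc_all P hcon hi j)

theorem cyc_in (P : ZMod n → Prop) {i j : ZMod n} (hi : P i) (hj : ¬ P j) :
    ∃ a, ¬ P a ∧ P (a + 1) := by
  obtain ⟨a, ha, hb⟩ := cyc_out (fun x => ¬ P x) hj (not_not.2 hi)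
  exact ⟨a, ha, not_not.1 hb⟩

end cyc

variable {n k : ℕ} [NeZero n]

/-- all the arcs to one sink -/
def star (n k : ℕ) [NeZero n] (b : Bool) : Finset ((ZMod n × Fin (k - 1)) ⊕ (ZMod n × Bool)) :=
  univ.image fun i : ZMod n => Sum.inr (i, b)

theorem star_card (b : Bool) : (star n k b).card = n := by
  rw [star, card_image_of_injective _ (by intro x y h; simpa using h), card_univ, ZMod.card]

omit [NeZero n] in
/-- There are no loops. -/
theorem loopless (hn : 2 ≤ n) (a : (ZMod n × Fin (k - 1)) ⊕ (ZMod n × Bool)) :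
    (ex n k).tail a ≠ (ex n k).head a := by
  have : Fact (1 < n) := ⟨by omega⟩
  rcases a with a | a
  · intro h
    have h1 := Sum.inl_injective h
    have h2 : (1 : ZMod n) = 0 := by
      have := congrArg (fun x => x - a.1) h1
      simpa using this.symm
    exact one_ne_zero h2
  · intro h
    simp [ex] at h

/-- (a) -/
theorem edgeConn (hk : 2 ≤ k) (hn : 2 * k ≤ n) : (ex n k).EdgeConn (2 * k) := by
  intro U hU hU'
  by_cases h1 : ∃ i : ZMod n, Sum.inl i ∈ U
  · by_cases h2 : ∃ j : ZMod n, Sum.inl j ∉ U
    · obtain ⟨i, hi⟩ := h1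
      obtain ⟨j, hj⟩ := h2
      obtain ⟨p, hp, hp'⟩ := cyc_out (fun x : ZMod n => (Sum.inl x : ZMod n ⊕ Bool) ∈ U) hi hj
      obtain ⟨q, hq, hq'⟩ := cyc_in (fun x : ZMod n => (Sum.inl x : ZMod n ⊕ Bool) ∈ U) hi hj
      let f : (Fin (k - 1) ⊕ Fin (k - 1)) ⊕ Bool → (ZMod n × Fin (k - 1)) ⊕ (ZMod n × Bool) :=
        fun x => match x with
          | .inl (.inl r) => .inl (p, r)
          | .inl (.inr r) => .inl (q, r)
          | .inr b => .inr (if (Sum.inr b : ZMod n ⊕ Bool) ∈ U then j else i, b)
      have hpq : p ≠ q := by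
        rintro rfl
        exact hq hp
      have hf : Function.Injective f := by
        rintro ((x | x) | x) ((y | y) | y) h
        · simp only [f, Sum.inl.injEq, Prod.mk.injEq] at h
          rw [h.2]
        · simp only [f, Sum.inl.injEq, Prod.mk.injEq] at h
          exact absurd h.1 hpq
        · simp [f] at h
        · simp only [f, Sum.inl.injEq, Prod.mk.injEq] at h
          exact absurd h.1.symm hpq
        · simp only [f, Sum.inl.injEq, Prod.mk.injEq] at h
          rw [h.2]
        · simp [f] at h
        · simp [f] at h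
        · simp [f] at h
        · simp only [f, Sum.inr.injEq, Prod.mk.injEq] at h
          rw [h.2]
      have hsub : univ.image f ⊆ (ex n k).dplus U ∪ (ex n k).dminus U := by
        intro a ha
        obtain ⟨x, -, rfl⟩ := mem_image.1 ha
        rw [mem_union, DiG.dplus, DiG.dminus, mem_filter, mem_filter]
        rcases x with (x | x) | b
        · left
          exact ⟨mem_univ _, hp, hp'⟩
        · right
          exact ⟨mem_univ _, hq, hq'⟩
        · by_cases hb : (Sum.inr b : ZMod n ⊕ Bool) ∈ U
          · right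
            refine ⟨mem_univ _, ?_, ?_⟩
            · simp only [f, ex, hb, if_true]
              exact hj
            · exact hb
          · left
            refine ⟨mem_univ _, ?_, ?_⟩
            · simp only [f, ex, hb, if_false]
              exact hi
            · exact hb
      have hc := card_le_card hsub
      rw [card_image_of_injective _ hf, card_univ] at hc
      simp only [Fintype.card_sum, Fintype.card_fin, Fintype.card_bool] at hc
      omega
    · push Not at h2
      have h3 : ∃ b : Bool, (Sum.inr b : ZMod n ⊕ Bool) ∉ U := by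
        by_contra hcon
        push Not at hcon
        apply hU'
        rw [eq_univ_iff_forall]
        rintro (x | x)
        · exact h2 x
        · exact hcon x
      obtain ⟨b, hb⟩ := h3
      have hsub : star n k b ⊆ (ex n k).dplus U ∪ (ex n k).dminus U := by
        intro a ha
        obtain ⟨x, -, rfl⟩ := mem_image.1 ha
        rw [mem_union, DiG.dplus, mem_filter]
        left
        exact ⟨mem_univ _, h2 x, hb⟩
      have hc := card_le_card hsub
      rw [star_card] at hc
      omega
  · push Not at h1
    obtain ⟨x, hx⟩ := hU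
    rcases x with x | b
    · exact absurd hx (h1 x)
    · have hsub : star n k b ⊆ (ex n k).dplus U ∪ (ex n k).dminus U := by
        intro a ha
        obtain ⟨x, -, rfl⟩ := mem_image.1 ha
        rw [mem_union, DiG.dminus, mem_filter]
        right
        exact ⟨mem_univ _, h1 x, hx⟩
      have hc := card_le_card hsub
      rw [star_card] at hc
      omega

/-- (b) -/
theorem dicuts (hk : 2 ≤ k) (C : Finset ((ZMod n × Fin (k - 1)) ⊕ (ZMod n × Bool)))
    (hC : (ex n k).IsDicut C) : n ≤ C.card := by
  obtain ⟨U, ⟨u, hu⟩, hU', h0, rfl⟩ := hC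
  have hno : ∀ a, ¬ ((ex n k).tail a ∉ U ∧ (ex n k).head a ∈ U) := by
    intro a ha
    have : a ∈ (ex n k).dminus U := mem_filter.2 ⟨mem_univ _, ha⟩
    rw [h0] at this
    simp at this
  -- some vertex of the cycle is in `U`
  have h1 : ∃ i : ZMod n, (Sum.inl i : ZMod n ⊕ Bool) ∈ U := by
    rcases u with i | b
    · exact ⟨i, hu⟩
    · by_contra hcon
      push Not at hcon
      exact hno (.inr (0, b)) ⟨hcon 0, hu⟩
  obtain ⟨i, hi⟩ := h1
  have h2 : ∀ j : ZMod n, (Sum.inl j : ZMod n ⊕ Bool) ∈ U := by
    by_contra hcon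
    push Not at hcon
    obtain ⟨j, hj⟩ := hcon
    obtain ⟨q, hq, hq'⟩ := cyc_in (fun x : ZMod n => (Sum.inl x : ZMod n ⊕ Bool) ∈ U) hi hj
    exact hno (.inl (q, ⟨0, by omega⟩)) ⟨hq, hq'⟩
  have h3 : ∃ b : Bool, (Sum.inr b : ZMod n ⊕ Bool) ∉ U := by
    by_contra hcon
    push Not at hcon
    apply hU'
    rw [eq_univ_iff_forall]
    rintro (x | x)
    · exact h2 x
    · exact hcon x
  obtain ⟨b, hb⟩ := h3
  have hsub : star n k b ⊆ (ex n k).dplus U := by
    intro a ha
    obtain ⟨x, -, rfl⟩ := mem_image.1 ha
    rw [DiG.dplus, mem_filter]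
    exact ⟨mem_univ _, h2 x, hb⟩
  have hc := card_le_card hsub
  rwa [star_card] at hc

/-- The arcs to a sink form a dicut. -/
theorem star_dicut (b : Bool) : (ex n k).IsDicut (star n k b) := by
  refine ⟨univ.erase (Sum.inr b), ⟨Sum.inl 0, by simp⟩, ?_, ?_, ?_⟩
  · intro h
    have := mem_univ (Sum.inr b : ZMod n ⊕ Bool)
    rw [← h] at this
    simp at this
  · rw [DiG.dminus, filter_eq_empty_iff]
    rintro (a | a) _ ⟨h1, h2⟩
    · apply h1
      simp [ex]
    · apply h1
      simp [ex]
  · ext a
    rw [star, mem_image, DiG.dplus, mem_filter]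
    rcases a with a | a
    · simp [ex]
    · obtain ⟨x, c⟩ := a
      simp only [mem_univ, true_and, ex, mem_erase, ne_eq, reduceCtorEq, not_false_eq_true,
        and_self, and_true, not_not, Sum.inr.injEq, Prod.mk.injEq]
      constructor
      · rintro ⟨y, -, rfl⟩
        rfl
      · rintro rfl
        exact ⟨x, rfl, rfl⟩

/-- (c) -/
theorem no_split (hk : 2 ≤ k) (hn : 2 * k < n) : ¬ (ex n k).Splits k (n - k) := by
  rintro ⟨J, J', -, hdis, hJ, hJ'⟩
  -- the arcs whose head is on the cycle after the reversal
  let H : ZMod n → Finset ((ZMod n × Fin (k - 1)) ⊕ (ZMod n × Bool)) :=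
    fun i => ((ex n k).reverse J).dminus {Sum.inl i}
  have hH : ∀ i, k ≤ (H i).card := by
    intro i
    refine hJ {Sum.inl i} ⟨_, mem_singleton_self _⟩ ?_
    intro h
    have := mem_univ (Sum.inr true : ZMod n ⊕ Bool)
    rw [← h] at this
    simp at this
  have hHd : ∀ i j, i ≠ j → Disjoint (H i) (H j) := by
    intro i j hij
    rw [Finset.disjoint_left]
    intro a ha hb
    have h1 := (mem_filter.1 ha).2.2
    have h2 := (mem_filter.1 hb).2.2
    rw [mem_singleton] at h1 h2
    rw [h1] at h2
    exact hij (Sum.inl_injective h2)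
  let W : Finset ((ZMod n × Fin (k - 1)) ⊕ (ZMod n × Bool)) := univ.biUnion H
  have hW : n * k ≤ W.card := by
    rw [card_biUnion (fun i _ j _ hij => hHd i j hij)]
    calc n * k = ∑ _i : ZMod n, k := by rw [sum_const, card_univ, ZMod.card, smul_eq_mul]
      _ ≤ _ := sum_le_sum fun i _ => hH i
  have hS : ∀ b : Bool, n - k ≤ (J' ∩ star n k b).card := fun b => hJ' _ (star_dicut b)
  have hSS : Disjoint (J' ∩ star n k true) (J' ∩ star n k false) := by
    rw [Finset.disjoint_left]
    intro a ha hb
    obtain ⟨x, -, hx⟩ := mem_image.1 (mem_inter.1 ha).2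
    obtain ⟨y, -, hy⟩ := mem_image.1 (mem_inter.1 hb).2
    rw [← hx] at hy
    simp at hy
  have hWS : Disjoint W ((J' ∩ star n k true) ∪ (J' ∩ star n k false)) := by
    rw [Finset.disjoint_left]
    intro a ha hb
    have hb' : a ∈ J' ∧ ∃ (x : ZMod n) (b : Bool), a = Sum.inr (x, b) := by
      rcases mem_union.1 hb with h | h
      · obtain ⟨x, -, hx⟩ := mem_image.1 (mem_inter.1 h).2
        exact ⟨(mem_inter.1 h).1, x, _, hx.symm⟩
      · obtain ⟨x, -, hx⟩ := mem_image.1 (mem_inter.1 h).2
        exact ⟨(mem_inter.1 h).1, x, _, hx.symm⟩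
    obtain ⟨hbJ, x, b, rfl⟩ := hb'
    obtain ⟨i, -, hi⟩ := mem_biUnion.1 ha
    have h1 := (mem_filter.1 hi).2.2
    have hnJ : (Sum.inr (x, b) : (ZMod n × Fin (k - 1)) ⊕ (ZMod n × Bool)) ∉ J := by
      intro h
      have : (Sum.inr (x, b) : (ZMod n × Fin (k - 1)) ⊕ (ZMod n × Bool)) ∈ J ∩ J' :=
        mem_inter.2 ⟨h, hbJ⟩
      rw [hdis] at this
      simp at this
    simp [DiG.reverse, hnJ, ex] at h1
  have hle := card_le_univ (W ∪ ((J' ∩ star n k true) ∪ (J' ∩ star n k false)))
  rw [card_union_of_disjoint hWS, card_union_of_disjoint hSS] at hle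
  simp only [Fintype.card_sum, Fintype.card_prod, Fintype.card_fin, Fintype.card_bool,
    ZMod.card] at hle
  have h1 := hS true
  have h2 := hS false
  have h3 : n * (k - 1) + n = n * k := by
    obtain ⟨m, rfl⟩ : ∃ m, k = m + 1 := ⟨k - 1, by omega⟩
    rw [Nat.add_sub_cancel]
    ring
  omega

/-- **The answer to Q1 is no**, for every `k ≥ 2` and every `τ > 2 k`: there is a finite loopless digraph whose
underlying undirected multigraph is `2 k`-edge-connected and in which every dicut has at least `τ`
arcs, but whose arc set does not decompose into a `k`-arc-connected flip and a `(τ - k)`-dijoin. -/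
theorem result : ∀ k τ : ℕ, 2 ≤ k → 2 * k < τ →
    ∃ (V A : Type) (_ : Fintype V) (_ : DecidableEq V) (_ : Fintype A) (_ : DecidableEq A)
      (D : DiG V A),
      (∀ a, D.tail a ≠ D.head a) ∧ D.EdgeConn (2 * k) ∧ (∀ C : Finset A, D.IsDicut C → τ ≤ C.card) ∧
        ¬ D.Splits k (τ - k) := by
  intro k τ hk hτ
  have : NeZero τ := ⟨by omega⟩
  exact ⟨ZMod τ ⊕ Bool, (ZMod τ × Fin (k - 1)) ⊕ (ZMod τ × Bool), inferInstance, inferInstance,
    inferInstance, inferInstance, ex τ k, loopless (by omega), edgeConn hk (by omega), dicuts hk, no_split hk hτ⟩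

end Pool.Agent.Results.MP_3933ef_co.FlipDijoinSplitting
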